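import Mathlib
import Pool.Agent.Helper7.HL.Main

/-!
# Haglund's positivity for all partitions and all large `k`

Symmetric functions of degree `n` are represented by symmetric polynomials in `n` variables.
A partition of `n` is a weakly decreasing vector with `n` entries (zeros allowed) and sum `n`.
-/

namespace Pool.Agent.Results.MP_ac62f2_co.LargeK

open Finset MvPolynomial
open scoped Classical

/-- The partitions of `n`: weakly decreasing vectors with `n` entries and sum `n`. -/
noncomputable def Parts (n : ℕ) : Finset (Fin n → ℕ) :=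
  (piAntidiag (univ : Finset (Fin n)) n).filter (fun mu => Antitone mu)

/-- The dominance order, by partial sums. -/
def Dominated {n : ℕ} (mu lam : Fin n → ℕ) : Prop :=
  ∀ k : ℕ, ∑ i : Fin n with i.val < k, mu i ≤ ∑ i : Fin n with i.val < k, lam i

/-- The monomial with exponent vector `e`. -/
noncomputable def mono {n : ℕ} (K : Type) [Field K] (e : Fin n → ℕ) : MvPolynomial (Fin n) K :=
  monomial (Finsupp.equivFunOnFinite.symm e) 1

/-- The monomial symmetric polynomial: the sum of the different rearrangements. -/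
noncomputable def msymm (n : ℕ) (K : Type) [Field K] (mu : Fin n → ℕ) :
    MvPolynomial (Fin n) K :=
  ∑ e ∈ univ.image (fun s : Equiv.Perm (Fin n) => mu ∘ s), mono K e

/-- The complete homogeneous symmetric polynomial of degree `k`, zero for negative `k`. -/
noncomputable def hsymm (n : ℕ) (K : Type) [Field K] (k : ℤ) : MvPolynomial (Fin n) K :=
  if 0 ≤ k then ∑ e ∈ piAntidiag (univ : Finset (Fin n)) k.toNat, mono K e else 0

/-- The Schur polynomial, by the Jacobi-Trudi determinant. -/
noncomputable def schurPoly (n : ℕ) (K : Type) [Field K] (mu : Fin n → ℕ) :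
    MvPolynomial (Fin n) K :=
  Matrix.det (Matrix.of fun i j : Fin n => hsymm n K ((mu i : ℤ) - (i.val : ℤ) + (j.val : ℤ)))

/-- The multiplicity vectors of the partitions of `n`: `d i` is the number of parts `i + 1`. -/
noncomputable def Cycles (n : ℕ) : Finset (Fin n → ℕ) :=
  (Fintype.piFinset (fun _ : Fin n => range (n + 1))).filter
    (fun d => ∑ i : Fin n, (i.val + 1) * d i = n)

/-- The product of power sums with multiplicity vector `d`. -/
noncomputable def powerProd (n : ℕ) (K : Type) [Field K] (d : Fin n → ℕ) :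
    MvPolynomial (Fin n) K :=
  ∏ i : Fin n, (∑ v : Fin n, X v ^ (i.val + 1)) ^ d i

/-- The value `⟨p, p⟩` of the scalar product with parameters `q`, `t` on the product of power
sums with multiplicity vector `d`. -/
noncomputable def normQT {n : ℕ} {K : Type} [Field K] (q t : K) (d : Fin n → ℕ) : K :=
  ∏ i : Fin n, (((i.val + 1 : ℕ) : K) ^ d i * ((d i).factorial : K) *
    ((1 - q ^ (i.val + 1)) / (1 - t ^ (i.val + 1))) ^ d i)

/-- The family of Macdonald polynomials of degree `n` with parameters `q`, `t`: unitriangular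
over the monomial symmetric polynomials, and orthogonal for the scalar product with parameters
`q`, `t`, which is computed from expansions in products of power sums. -/
structure IsMacdonald (n : ℕ) {K : Type} [Field K] (q t : K)
    (P : (Fin n → ℕ) → MvPolynomial (Fin n) K) : Prop where
  triangular : ∀ lam ∈ Parts n, ∃ u : (Fin n → ℕ) → K,
    P lam = msymm n K lam +
      ∑ nu ∈ (Parts n).filter (fun nu => Dominated nu lam ∧ nu ≠ lam), u nu • msymm n K nu
  orthogonal : ∀ lam ∈ Parts n, ∀ mu ∈ Parts n, lam ≠ mu → ∃ a b : (Fin n → ℕ) → K,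
    P lam = ∑ d ∈ Cycles n, a d • powerProd n K d ∧
    P mu = ∑ d ∈ Cycles n, b d • powerProd n K d ∧
    ∑ d ∈ Cycles n, a d * b d * normQT q t d = 0

/-- The leg length of the cell in row `i` and column `j` (both counted from zero). -/
noncomputable def legLength {n : ℕ} (lam : Fin n → ℕ) (i : Fin n) (j : ℕ) : ℕ :=
  (univ.filter (fun i' : Fin n => i < i' ∧ j < lam i')).card

/-- The factor `c_lam(q, t)`: the product over the cells of `1 - q ^ arm * t ^ (leg + 1)`. -/
noncomputable def cellProd {n : ℕ} {K : Type} [Field K] (q t : K) (lam : Fin n → ℕ) : K :=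
  ∏ i : Fin n, ∏ j ∈ range (lam i), (1 - q ^ (lam i - j - 1) * t ^ (legLength lam i j + 1))

/-- The element `q` of the field `ℚ(q)(t)`. -/
noncomputable def qElt : RatFunc (RatFunc ℚ) := RatFunc.C RatFunc.X

/-- The element `t` of the field `ℚ(q)(t)`. -/
noncomputable def tElt : RatFunc (RatFunc ℚ) := RatFunc.X

/-- The element `a` of `ℚ(q)(t)` can be evaluated at `t = q ^ k`, with value `v`. -/
def ValueAt (k : ℕ) (a : RatFunc (RatFunc ℚ)) (v : RatFunc ℚ) : Prop :=
  (RatFunc.denom a).eval (RatFunc.X ^ k) ≠ 0 ∧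
    RatFunc.eval (RingHom.id (RatFunc ℚ)) (RatFunc.X ^ k) a = v

/-- **Haglund's conjecture for all partitions of `n` and all large `k`.**  For every `n` there
is `k0` such that the following holds for all `k ≥ k0`, for the family `P` of Macdonald
polynomials of degree `n` over `ℚ(q)(t)` and all partitions `lam`, `mu` of `n`: the integral
form `J = c_lam(q, t) P_lam` has an expansion in Schur polynomials, and in every such expansion
the coefficient of `s_mu` is defined at `t = q ^ k`, with value `(1 - q) ^ n * R(q)` for a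
polynomial `R` with coefficients in the natural numbers. -/
theorem result (n : ℕ) :
    ∃ k0 : ℕ, ∀ k ≥ k0, ∀ P : (Fin n → ℕ) → MvPolynomial (Fin n) (RatFunc (RatFunc ℚ)),
      IsMacdonald n qElt tElt P → ∀ lam ∈ Parts n,
      (∃ a : (Fin n → ℕ) → RatFunc (RatFunc ℚ),
        cellProd qElt tElt lam • P lam = ∑ mu ∈ Parts n, a mu • schurPoly n _ mu) ∧
      ∀ a : (Fin n → ℕ) → RatFunc (RatFunc ℚ),
        cellProd qElt tElt lam • P lam = ∑ mu ∈ Parts n, a mu • schurPoly n _ mu →
        ∀ mu ∈ Parts n, ∃ R : Polynomial ℕ, ValueAt k (a mu)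
          ((1 - RatFunc.X) ^ n *
            Polynomial.eval₂ (Nat.castRingHom (RatFunc ℚ)) RatFunc.X R) := by
  obtain ⟨k0, hk0⟩ := Helper7.HL.mainThm n
  refine ⟨k0, ?_⟩
  intro k hk P hP lam hlam
  have hP' : Helper32.HG.IsMac n Helper7.HL.qF Helper7.HL.tF P :=
    ⟨hP.triangular, hP.orthogonal⟩
  have hlam' : lam ∈ Helper32.HG.parts n := hlam
  obtain ⟨A, h1, h2⟩ := hk0 P hP'
  have huniq : ∀ a a' : (Fin n → ℕ) → RatFunc (RatFunc ℚ),
      ∑ mu ∈ Parts n, a mu • schurPoly n (RatFunc (RatFunc ℚ)) mu =
      ∑ mu ∈ Parts n, a' mu • schurPoly n (RatFunc (RatFunc ℚ)) mu →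
      ∀ mu ∈ Parts n, a mu = a' mu := by
    intro a a' h mu hmu
    have e1 : ∑ mu ∈ Helper32.HG.parts n, (a mu - a' mu) •
        Helper32.HG.schur n (RatFunc (RatFunc ℚ)) mu = 0 := by
      simp only [sub_smul]
      rw [sum_sub_distrib, sub_eq_zero]
      exact h
    have e2 := Helper32.HG.schur_indep (fun mu => a mu - a' mu) e1 mu hmu
    exact sub_eq_zero.1 e2
  have hA : cellProd qElt tElt lam • P lam = ∑ mu ∈ Parts n, A lam mu • schurPoly n _ mu :=
    h1 lam hlam'
  refine ⟨⟨fun mu => A lam mu, hA⟩, ?_⟩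
  intro a ha mu hmu
  have h4 := huniq a (fun mu => A lam mu) (ha.symm.trans hA) mu hmu
  have hmu' : mu ∈ Helper32.HG.parts n := hmu
  rw [h4]
  obtain ⟨R, h5, h6⟩ := h2 k hk lam hlam' mu hmu'
  exact ⟨R, h5, h6⟩

end Pool.Agent.Results.MP_ac62f2_co.LargeK
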